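import Pool.Agent.H517R2.RS.RND1
import Pool.Agent.H517R2.RS.RND2
import Pool.Agent.H517R2.RS.RND
import Pool.Agent.H517R2.RS.IND
import Pool.Agent.H517R2.RS.TOUR
import Pool.Agent.H517R2.RS.COV
import Pool.Agent.H517R2.RS.MODE
import Pool.Agent.H517R2.RS.BINE
import Pool.Agent.H517R2.RS.CHU
import Pool.Agent.H517R2.RS.RAT
import Pool.Agent.H517R2.RS.INDEP
import Pool.Agent.H517R2.RS.WORDS
import Pool.Agent.H517R2.RS.FAMC
import Pool.Agent.H517R2.RS.FAMA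
import Pool.Agent.H517R2.RS.BASE2
import Pool.Agent.H517R2.RS.STEP2
import Pool.Agent.H517R2.RS.CHN2
import Pool.Agent.H517R2.RS.TOP2
import Pool.Agent.H517R2.RS.COMB2
import Pool.Agent.H517R2.RS.WNL
import Pool.Agent.H517R2.RS.PHI2
import Pool.Agent.H517R2.RS.NC2
import Pool.Agent.H517R2.RS.NL2
import Pool.Agent.H517R2.RS.RATE2
import Pool.Agent.H517R2.RS.FIN2

/-!
# Localized errors: `w`-ary Hamming bounds for every `τ < 1/2`

The lemmas were formalised by helpers 35, 702, 509, 724, 761, 52, 794, 971, 123, 201, 571, 631, 79,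
511, 23, 873, 48, 553, 844, 134, 252, 872, 488 and (for the first version) 741, 143, 369, 807, 679,
623, 581, 648, 852, 577, 92.
-/

namespace Pool.Agent.Results.MP_f4617e_lc.ReservedSymbol

open Pool.Agent.H517R2.LE (Corrects hammingRate)
open Pool.Agent.H517R2.RS

theorem rate2 : RATE2 := by
  have hRND : RND := t_RND t_RND1 t_RND2
  have hTOUR : TOUR := t_TOUR t_IND
  have hBINE : BINE := t_BINE t_MODE
  have hFAMA : FAMA := t_FAMA (t_FAMC hRND)
  have hCHN : CHN2 := t_CHN2 (t_BASE2 t_COV t_WORDS) (t_STEP2 t_COV t_WORDS)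
  have hTOP : TOP2 := t_TOP2 t_INDEP hTOUR t_WORDS
  have hWNL : WNL := t_WNL hBINE
  exact t_RATE2 hFAMA (t_COMB2 hCHN hTOP t_WNU) t_IDE t_PHI2 (t_NC2 t_RAT hWNL)
    (t_NL2 hBINE t_CHU hWNL)

/-- For `q ≥ 3`, `0 < τ < 1/2` and `ε > 0`:

* for every `β` in `[0, 1/2]` and `w = exp (h β) (q-1)^(1-β)` (natural entropy) with
  `β (1 - τ w / (w - 1)) < 1 - 2 τ` the rate `(log w - h τ - τ log (w - 1)) / log q - ε` is attained
  by codes correcting `⌊τ n⌋` localized errors for all large `n`;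
* (`β = 0`, `w = q - 1`) in particular, for all large `n` there is such a code whose rate is at least
  the `(q-1)`-ary Hamming bound minus `ε`, at least `H_q(τ) - 1 / ((q-1) log q) - ε`, and at least
  `log ((q-1)^2 / (4 (q-2))) / (2 log q) - ε`. -/
theorem result :
    ∀ q : ℕ, 3 ≤ q → ∀ τ : ℝ, 0 < τ → τ < 1 / 2 → ∀ ε : ℝ, 0 < ε →
      (∀ β w : ℝ, 0 ≤ β → β ≤ 1 / 2 →
        w = Real.exp (Real.binEntropy β) * ((q : ℝ) - 1) ^ (1 - β) →
        β * (1 - τ * w / (w - 1)) < 1 - 2 * τ →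
        ∃ n₀ : ℕ, ∀ n : ℕ, n₀ ≤ n → ∃ M : ℕ, 1 ≤ M ∧
          (∃ f : Fin M → Finset (Fin n) → Fin n → Fin q, Corrects ⌊τ * n⌋₊ f) ∧
          (Real.log w - Real.binEntropy τ - τ * Real.log (w - 1)) / Real.log q - ε ≤
            Real.logb q M / n) ∧
      ∃ n₀ : ℕ, ∀ n : ℕ, n₀ ≤ n → ∃ M : ℕ, 1 ≤ M ∧
        (∃ f : Fin M → Finset (Fin n) → Fin n → Fin q, Corrects ⌊τ * n⌋₊ f) ∧
        (Real.log ((q : ℝ) - 1) - Real.binEntropy τ - τ * Real.log ((q : ℝ) - 2)) /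
            Real.log q - ε ≤ Real.logb q M / n ∧
        hammingRate q τ - 1 / (((q : ℝ) - 1) * Real.log q) - ε ≤ Real.logb q M / n ∧
        Real.log (((q : ℝ) - 1) ^ 2 / (4 * ((q : ℝ) - 2))) / (2 * Real.log q) - ε ≤
          Real.logb q M / n :=
  fun q hq τ h0 h1 ε hε => ⟨t_FIN2 rate2 q hq τ h0 h1 ε hε,
    t_FIN (rateb_of_rate2 rate2) q hq τ h0 h1 ε hε⟩

end Pool.Agent.Results.MP_f4617e_lc.ReservedSymbol
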