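import Pool.Agent.H517R2.LE.EXP
import Pool.Agent.H517R2.LE.GRD
import Pool.Agent.H517R2.LE.AGR
import Pool.Agent.H517R2.LE.COD
import Pool.Agent.H517R2.LE.LAB
import Pool.Agent.H517R2.LE.CODE
import Pool.Agent.H517R2.LE.RATE

/-!
# Codes correcting localized errors: the Hamming bound up to `20 / log₂ q`, uniformly in `τ < 1/2`
-/

namespace Pool.Agent.Results.MP_f4617e_lc.UniformNearHamming

open Pool.Agent.H517R2.LE

/-- For all `q, n, t` with `2 t < n` there is a `q`-ary code of length `n` with `⌊q / 2^19⌋ ^ (n - t)`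
messages correcting `t` localized errors; hence for every `q ≥ 2`, every `0 < τ < 1/2` and every `n ≥ 1`
there is a code correcting `⌊τ n⌋` localized errors whose rate is at least
`(1 - τ) (1 - 20 / log₂ q)` and at least the Hamming bound minus `20 / log₂ q`. -/
theorem result :
    (∀ q n t : ℕ, 2 * t < n →
      ∃ f : Fin ((q / 2 ^ 19) ^ (n - t)) → Finset (Fin n) → Fin n → Fin q, Corrects t f) ∧
    (∀ q : ℕ, 2 ≤ q → ∀ τ : ℝ, 0 < τ → τ < 1 / 2 → ∀ n : ℕ, 1 ≤ n →
      ∃ M : ℕ, 1 ≤ M ∧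
        (∃ f : Fin M → Finset (Fin n) → Fin n → Fin q, Corrects ⌊τ * n⌋₊ f) ∧
        (1 - τ) * (1 - 20 / Real.logb 2 q) ≤ Real.logb q M / n ∧
        hammingRate q τ - 20 / Real.logb 2 q ≤ Real.logb q M / n) := by
  have hC : CODE := t_CODE (t_LAB t_EXP (t_COD t_GRD t_AGR))
  refine ⟨fun q n t h => hC q n t (q / 2 ^ 19) h (Nat.mul_div_le q (2 ^ 19)), t_RATE hC⟩

end Pool.Agent.Results.MP_f4617e_lc.UniformNearHamming
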